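import Pool.Agent.MP_df844f_gt.fb.Line

namespace Pool.Agent.Results.MP_df844f_gt.LineRank

open Pool.Agent.MP_df844f_gt.RA Pool.Agent.MP_df844f_gt.FB DihedralGroup

/-- A finite-index subgroup of a compact right-angled hyperbolic reflection group in dimension 3
which has injectivity radius above a constant and acts on the line through the infinite dihedral
group, with closed surface groups on `k` generators as maximal point stabilisers and translation
length at least a constant times its rank, has rank `k + 1`. -/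
theorem result {V : Type} [Finite V] (G : SimpleGraph V) (hG : Sphere G) :
    ∃ ρ C : ℕ, ∀ (Γ : Subgroup (RACG G)) [Γ.FiniteIndex],
      (∀ w : RACG G, ∀ γ ∈ Γ, wlen G (w * γ * w⁻¹) ≤ ρ → γ = 1) →
      ∀ φ : Γ →* DihedralGroup 0, r 1 ∈ φ.range → ∀ k : ℕ, 2 ≤ k →
      (∀ i, IsSurf k ((Subgroup.zpowers (sr i)).comap φ)) →
      (∀ (γ : Γ) (i : ℤ), φ γ = r 1 ^ i → (C * Group.rank Γ : ℤ) * |i| ≤ wlen G γ) →
      Group.rank Γ = k + 1 :=
  @lineA ⟨V, G, ‹_›, hG⟩

end Pool.Agent.Results.MP_df844f_gt.LineRank
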