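import Pool.Agent.MP_df844f_gt.RA.c.All

namespace Pool.Agent.Results.MP_df844f_gt.LinearRank

open Pool.Agent.MP_df844f_gt.RA

/-- The cutwidth of the Schreier graph of every finite-index subgroup of a compact right-angled
hyperbolic reflection group in dimension 3 is at most a constant times its rank. -/
theorem result {V : Type} [Finite V] (G : SimpleGraph V) (hG : Sphere G) :
    ∃ C : ℕ, ∀ (Γ : Subgroup (RACG G)) [Γ.FiniteIndex], ∃ e : (RACG G ⧸ Γ) ↪ ℕ, ∀ k : ℕ,
      {p : (RACG G ⧸ Γ) × V | e p.1 < k ∧ k ≤ e (gen G p.2 • p.1)}.ncard ≤ C * Group.rank Γ :=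
  @CW.finA ⟨V, G, ‹_›, hG⟩

end Pool.Agent.Results.MP_df844f_gt.LinearRank
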